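import Pool.Agent.H101.HB.Stm
import Pool.Graph.R_seed8.W188.GLR.G1
import Pool.Graph.R_pool_sql_team_seeded_63374d34.N573.TLG.A

/-!
# Project HB: the quotient of the gamma factors (`S_R`)
-/

set_option autoImplicit false

open Complex Filter Topology Set

namespace Pool.Agent.H388.HB

open Pool.Agent.H101.HB Pool.Agent.W188.GLR

/-- bounds for the logarithmic derivative -/
lemma lam_bd : ∃ K : ℝ, 1 ≤ K ∧ ∀ w : ℂ, 3 / 8 ≤ w.re → w.re ≤ 3 →
    |(Lam w).re - 1 / 2 * Real.log (2 + |w.im|)| ≤ K ∧ |(Lam w).im| ≤ K := by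
  obtain ⟨K₀, hK₀⟩ : ∃ K₀ : ℝ, K₀ = 2 / (3 / 16) + ∑' n : ℕ, 1 / ((n : ℝ) + 1) ^ 2 := ⟨_, rfl⟩
  have hK0 : 0 ≤ K₀ := by
    have := Z2_nonneg
    rw [hK₀]
    positivity
  refine ⟨K₀ + 5, by linarith, fun w hw1 hw2 => ?_⟩
  have hz : 3 / 16 ≤ (w / 2).re := by
    have : (w / 2).re = w.re / 2 := by simp
    rw [this]; linarith
  have hz2 : (w / 2).re ≤ 3 / 2 := by
    have : (w / 2).re = w.re / 2 := by simp
    rw [this]; linarith
  have him : (w / 2).im = w.im / 2 := by simp
  have h1 := psi_close (z := w / 2) (a := 3 / 16) (by norm_num) hz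
  rw [← hK₀] at h1
  have hre := (abs_re_le_norm _).trans h1
  have hi := (abs_im_le_norm _).trans h1
  rw [sub_re, log_re] at hre
  rw [sub_im, log_im] at hi
  -- the argument
  have harg : |arg (w / 2 + 2)| ≤ 2 := by
    have h4 : |arg (w / 2 + 2)| ≤ Real.pi / 2 := by
      rw [abs_arg_le_pi_div_two_iff]
      simp only [add_re, re_ofNat]
      linarith
    have := Real.pi_lt_d2
    linarith
  -- the modulus
  have hn1 : (2 + |w.im|) / 4 ≤ ‖w / 2 + 2‖ := by
    have e1 := re_le_norm (w / 2 + 2)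
    have e2 := abs_im_le_norm (w / 2 + 2)
    simp only [add_re, re_ofNat] at e1
    simp only [add_im, im_ofNat, add_zero] at e2
    rw [him, abs_div, abs_two] at e2
    linarith
  have hn2 : ‖w / 2 + 2‖ ≤ 4 * (2 + |w.im|) := by
    have e1 := norm_le_abs_re_add_abs_im (w / 2 + 2)
    simp only [add_re, re_ofNat, add_im, im_ofNat, add_zero] at e1
    rw [him, abs_div, abs_two, abs_of_nonneg (by linarith : (0:ℝ) ≤ (w / 2).re + 2)] at e1
    have := abs_nonneg w.im
    linarith
  have hp : 0 < 2 + |w.im| := by have := abs_nonneg w.im; linarith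
  have hl4 : Real.log 4 ≤ 2 := by
    have : Real.log 4 = 2 * Real.log 2 := by
      rw [show (4:ℝ) = 2 ^ 2 by norm_num, Real.log_pow]; norm_num
    have := Real.log_two_lt_d9
    linarith
  have hl1 : Real.log (2 + |w.im|) - 2 ≤ Real.log ‖w / 2 + 2‖ := by
    have := Real.log_le_log (by positivity) hn1
    rw [Real.log_div hp.ne' (by norm_num)] at this
    linarith
  have hl2 : Real.log ‖w / 2 + 2‖ ≤ Real.log (2 + |w.im|) + 2 := by
    have hn0 : 0 < ‖w / 2 + 2‖ := lt_of_lt_of_le (by positivity) hn1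
    have := Real.log_le_log hn0 hn2
    rw [Real.log_mul (by norm_num) hp.ne'] at this
    linarith
  have hpi0 : 0 ≤ Real.log Real.pi := Real.log_nonneg (by have := Real.pi_gt_three; linarith)
  have hpi : Real.log Real.pi ≤ 2 := by
    have := Real.log_le_log Real.pi_pos (by have := Real.pi_lt_d2; linarith : Real.pi ≤ 4)
    linarith
  have eL : (Lam w).re = -Real.log Real.pi / 2 + (logDeriv Gamma (w / 2)).re / 2 := by
    unfold Lam
    rw [add_re, div_ofNat_re, div_ofNat_re, neg_re, ofReal_re]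
  have eI : (Lam w).im = (logDeriv Gamma (w / 2)).im / 2 := by
    unfold Lam
    rw [add_im, div_ofNat_im, div_ofNat_im, neg_im, ofReal_im]
    ring
  rw [abs_le] at hre hi harg
  constructor
  · rw [eL, abs_le]
    constructor <;> linarith [hre.1, hre.2]
  · rw [eI, abs_le]
    constructor <;> linarith [hi.1, hi.2, harg.1, harg.2]

/-- the quotient `Γ_ℝ(s - r) / Γ_ℝ(s)` -/
noncomputable def E (s : ℂ) (r : ℝ) : ℂ := Gammaℝ (s - r) / Gammaℝ s

lemma R_eq (δ : ℝ) (s : ℂ) : R δ s = E s (2 * δ) := rfl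

lemma E_hd {s : ℂ} {r : ℝ} (h : 0 < (s - r).re) :
    HasDerivAt (E s) (-(Lam (s - r)) * E s r) r := by
  have h3 : HasDerivAt (fun w : ℂ => s - w) (-1) (r : ℂ) := by
    simpa using (hasDerivAt_id (r : ℂ)).const_sub s
  have h4 : HasDerivAt (fun w : ℂ => Gammaℝ (s - w)) (Gammaℝ (s - r) * Lam (s - r) * (-1)) (r : ℂ) :=
    (gr_hasDeriv h).comp (r : ℂ) h3
  have h5 := (h4.div_const (Gammaℝ s)).comp_ofReal
  refine h5.congr_deriv ?_
  unfold E
  ring

lemma E_zero {s : ℂ} (hs : 0 < s.re) : E s 0 = 1 := by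
  unfold E
  rw [ofReal_zero, sub_zero]
  exact div_self (gr_ne hs)

/-- the modulus of `E` -/
lemma E_norm {s : ℂ} {c ρ : ℝ} (hre : ρ < s.re)
    (hc : ∀ r ∈ Icc (0:ℝ) ρ, -c ≤ (Lam (s - r)).re) : ∀ r ∈ Icc (0:ℝ) ρ, ‖E s r‖ ≤ Real.exp (c * r) := by
  intro r hr
  have hρ : 0 ≤ ρ := hr.1.trans hr.2
  have hd : ∀ x ∈ Icc (0:ℝ) ρ, HasDerivAt (fun x : ℝ => ‖E s x‖ ^ 2 * Real.exp (-(2 * c) * x))
      ((2 * (-(Lam (s - x)).re - c)) * ‖E s x‖ ^ 2 * Real.exp (-(2 * c) * x)) x := by
    intro x hx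
    have hp : 0 < (s - x).re := by
      rw [sub_re, ofReal_re]; linarith [hx.2]
    have h1 := (E_hd hp).norm_sq
    have h2 : HasDerivAt (fun x : ℝ => Real.exp (-(2 * c) * x)) (Real.exp (-(2 * c) * x) * (-(2 * c))) x := by
      have := ((hasDerivAt_id x).const_mul (-(2 * c))).exp
      simpa using this
    refine (h1.mul h2).congr_deriv ?_
    rw [Complex.inner]
    have e : (-Lam (s - x) * E s x * (starRingEnd ℂ) (E s x)).re = -(Lam (s - x)).re * ‖E s x‖ ^ 2 := by
      rw [mul_assoc, mul_conj, normSq_eq_norm_sq, re_mul_ofReal, neg_re]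
    rw [e]
    ring
  have hanti : AntitoneOn (fun x : ℝ => ‖E s x‖ ^ 2 * Real.exp (-(2 * c) * x)) (Icc 0 ρ) := by
    refine antitoneOn_of_deriv_nonpos (convex_Icc _ _) (fun x hx => (hd x hx).continuousAt.continuousWithinAt)
      (fun x hx => ?_) (fun x hx => ?_)
    · rw [interior_Icc] at hx
      exact (hd x ⟨hx.1.le, hx.2.le⟩).differentiableAt.differentiableWithinAt
    · rw [interior_Icc] at hx
      rw [(hd x ⟨hx.1.le, hx.2.le⟩).deriv]
      have := hc x ⟨hx.1.le, hx.2.le⟩
      have h2 : 2 * (-(Lam (s - x)).re - c) ≤ 0 := by linarith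
      have h3 : 0 ≤ ‖E s x‖ ^ 2 * Real.exp (-(2 * c) * x) := by positivity
      have := mul_nonpos_of_nonpos_of_nonneg h2 h3
      linarith
  have h := hanti (left_mem_Icc.2 hρ) hr hr.1
  simp only [mul_zero, Real.exp_zero, mul_one] at h
  rw [E_zero (by linarith), norm_one, one_pow] at h
  have h2 : ‖E s r‖ ^ 2 ≤ Real.exp (c * r) ^ 2 := by
    have e : Real.exp (c * r) ^ 2 * Real.exp (-(2 * c) * r) = 1 := by
      rw [← Real.exp_nat_mul, ← Real.exp_add, Real.exp_eq_one_iff]
      push_cast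
      ring
    have hpos := Real.exp_pos (-(2 * c) * r)
    by_contra hcon
    push Not at hcon
    have := mul_lt_mul_of_pos_right hcon hpos
    linarith
  exact le_of_sq_le_sq h2 (Real.exp_pos _).le

/-- the derivative of `R` -/
lemma R_hd {δ : ℝ} {s : ℂ} (h1 : 0 < s.re) (h2 : 0 < (s - ((2 * δ : ℝ) : ℂ)).re) :
    HasDerivAt (R δ) (R δ s * (Lam (s - ((2 * δ : ℝ) : ℂ)) - Lam s)) s := by
  have h3 : HasDerivAt (fun w : ℂ => w - ((2 * δ : ℝ) : ℂ)) 1 s := by
    simpa using (hasDerivAt_id s).sub_const ((2 * δ : ℝ) : ℂ)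
  have h4 : HasDerivAt (fun w : ℂ => Gammaℝ (w - ((2 * δ : ℝ) : ℂ)))
      (Gammaℝ (s - ((2 * δ : ℝ) : ℂ)) * Lam (s - ((2 * δ : ℝ) : ℂ)) * 1) s := by
    have h0 := gr_hasDeriv h2
    exact HasDerivAt.comp (h₂ := Gammaℝ) (h := fun w : ℂ => w - ((2 * δ : ℝ) : ℂ)) s h0 h3
  have hne := gr_ne h1
  have h5 := h4.div (gr_hasDeriv h1) hne
  refine h5.congr_deriv ?_
  unfold R
  field_simp

theorem t_R : S_R := by
  obtain ⟨K, hK1, hK⟩ := lam_bd
  -- crude bounds
  have hlow : ∀ w : ℂ, 3 / 8 ≤ w.re → w.re ≤ 3 → -K ≤ (Lam w).re := by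
    intro w h1 h2
    have := (abs_le.1 (hK w h1 h2).1).1
    have h3 : 0 ≤ Real.log (2 + |w.im|) := Real.log_nonneg (by have := abs_nonneg w.im; linarith)
    linarith
  obtain ⟨X, hX⟩ : ∃ X : ℝ, X = Real.exp (K / 4) := ⟨_, rfl⟩
  have hX1 : 1 ≤ X := by rw [hX]; exact Real.one_le_exp (by linarith)
  have hRb : ∀ (δ : ℝ) (s : ℂ), 0 < δ → δ ≤ 1 / 8 → 1 / 2 + δ ≤ s.re → s.re ≤ 3 →
      ∀ r ∈ Icc (0:ℝ) (2 * δ), ‖E s r‖ ≤ X := by
    intro δ s hδ hδ' hs hs' r hr
    have h1 := E_norm (s := s) (c := K) (ρ := 2 * δ) (by linarith) (fun r hr => by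
      apply hlow
      · rw [sub_re, ofReal_re]; linarith [hr.2]
      · rw [sub_re, ofReal_re]; linarith [hr.1]) r hr
    refine h1.trans ?_
    rw [hX]
    apply Real.exp_le_exp.2
    nlinarith [hr.2, hr.1]
  refine ⟨20 * K * X, by positivity, fun δ hδ hδ' => ⟨fun s hs hs' => ?_, fun t => ?_⟩⟩
  · have hre2 : (s - ((2 * δ : ℝ) : ℂ)).re = s.re - 2 * δ := by rw [sub_re, ofReal_re]
    have him2 : (s - ((2 * δ : ℝ) : ℂ)).im = s.im := by rw [sub_im, ofReal_im, sub_zero]
    have hp1 : 0 < s.re := by linarith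
    have hp2 : 0 < (s - ((2 * δ : ℝ) : ℂ)).re := by rw [hre2]; linarith
    have hd := R_hd hp1 hp2
    have hR := hRb δ s hδ hδ' hs hs' (2 * δ) ⟨by linarith, le_rfl⟩
    rw [← R_eq] at hR
    refine ⟨hd.differentiableAt, ?_, ?_⟩
    · refine hR.trans ?_
      nlinarith
    · rw [hd.deriv, norm_mul]
      have hdiff : ‖Lam (s - ((2 * δ : ℝ) : ℂ)) - Lam s‖ ≤ 20 * K / (1 + |s.im|) := by
        have hi0 := abs_nonneg s.im
        rcases le_or_gt 2 |s.im| with hbig | hsmall
        · have e1 : ‖Lam (s - ((2 * δ : ℝ) : ℂ)) - Lam s‖ =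
              ‖logDeriv Gamma ((s - ((2 * δ : ℝ) : ℂ)) / 2) - logDeriv Gamma (s / 2)‖ / 2 := by
            unfold Lam
            rw [add_sub_add_left_eq_sub, ← sub_div, norm_div]
            norm_num
          have hR₀ : 1 ≤ |s.im| / 2 := by linarith
          have hn1 : |s.im| / 2 ≤ ‖s / 2‖ := by
            have := abs_im_le_norm (s / 2)
            rwa [div_ofNat_im, abs_div, Nat.abs_ofNat] at this
          have hn2 : |s.im| / 2 ≤ ‖(s - ((2 * δ : ℝ) : ℂ)) / 2‖ := by
            have := abs_im_le_norm ((s - ((2 * δ : ℝ) : ℂ)) / 2)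
            rwa [div_ofNat_im, abs_div, Nat.abs_ofNat, him2] at this
          have h1 : ‖(s - ((2 * δ : ℝ) : ℂ)) / 2 - s / 2‖ ≤ δ := by
            have : (s - ((2 * δ : ℝ) : ℂ)) / 2 - s / 2 = -((δ : ℝ) : ℂ) := by push_cast; ring
            rw [this, norm_neg, norm_real, Real.norm_eq_abs, abs_of_pos hδ]
          have h2 := Pool.Agent.N573.TLG.psi_lip (z := s / 2) (z' := (s - ((2 * δ : ℝ) : ℂ)) / 2)
            (R := |s.im| / 2) (Δ := δ) (by rw [div_ofNat_re]; linarith)
            (by rw [div_ofNat_re]; linarith) hR₀ hn1 hn2 h1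
          rw [e1]
          have h3 : 6 * δ / (|s.im| / 2) ≤ 2 * (20 * K / (1 + |s.im|)) := by
            rw [div_le_iff₀ (by linarith), mul_comm (2:ℝ) (20 * K / _), mul_assoc, div_mul_eq_mul_div,
              le_div_iff₀ (by linarith)]
            nlinarith
          linarith
        · have h1 := hK s (by linarith) hs'
          have h2 := hK (s - ((2 * δ : ℝ) : ℂ)) (by rw [hre2]; linarith) (by rw [hre2]; linarith)
          rw [him2] at h2
          have hl : Real.log (2 + |s.im|) ≤ 2 := by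
            have h4 : Real.log (2 + |s.im|) ≤ Real.log 4 := Real.log_le_log (by linarith) (by linarith)
            have : Real.log 4 = 2 * Real.log 2 := by
              rw [show (4:ℝ) = 2 ^ 2 by norm_num, Real.log_pow]; norm_num
            have := Real.log_two_lt_d9
            linarith
          have h3 := norm_le_abs_re_add_abs_im (Lam (s - ((2 * δ : ℝ) : ℂ)) - Lam s)
          rw [sub_re, sub_im] at h3
          have h4 : |(Lam (s - ((2 * δ : ℝ) : ℂ))).re - (Lam s).re| ≤ 2 * K := by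
            have a1 := abs_le.1 h1.1
            have a2 := abs_le.1 h2.1
            rw [abs_le]; constructor <;> linarith [a1.1, a1.2, a2.1, a2.2]
          have h5 : |(Lam (s - ((2 * δ : ℝ) : ℂ))).im - (Lam s).im| ≤ 2 * K := by
            have a1 := abs_le.1 h1.2
            have a2 := abs_le.1 h2.2
            rw [abs_le]; constructor <;> linarith [a1.1, a1.2, a2.1, a2.2]
          rw [le_div_iff₀ (by linarith)]
          nlinarith [norm_nonneg (Lam (s - ((2 * δ : ℝ) : ℂ)) - Lam s)]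
      calc ‖R δ s‖ * ‖Lam (s - ((2 * δ : ℝ) : ℂ)) - Lam s‖ ≤ X * (20 * K / (1 + |s.im|)) :=
            mul_le_mul hR hdiff (norm_nonneg _) (by linarith)
        _ = 20 * K * X / (1 + |s.im|) := by ring
  · -- the critical line
    obtain ⟨s, hs⟩ : ∃ s : ℂ, s = ln δ t := ⟨_, rfl⟩
    have hsre : s.re = 1 / 2 + δ := by rw [hs]; simp [ln]
    have hsim : s.im = t := by rw [hs]; simp [ln]
    rw [← hs]
    obtain ⟨L, hL⟩ : ∃ L : ℝ, L = Real.log (2 + |t|) := ⟨_, rfl⟩
    have hL0 : 0 ≤ L := by rw [hL]; exact Real.log_nonneg (by have := abs_nonneg t; linarith)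
    rw [← hL]
    have hLam : ∀ r ∈ Icc (0:ℝ) (2 * δ), 1 / 2 * L - K ≤ (Lam (s - r)).re ∧
        (Lam (s - r)).re ≤ 1 / 2 * L + K ∧ |(Lam (s - r)).im| ≤ K := by
      intro r hr
      have h := hK (s - r) (by rw [sub_re, ofReal_re]; linarith [hr.2])
        (by rw [sub_re, ofReal_re]; linarith [hr.1])
      rw [sub_im, ofReal_im, sub_zero, hsim, ← hL] at h
      have := abs_le.1 h.1
      exact ⟨by linarith [this.1], by linarith [this.2], h.2⟩
    have hEn := E_norm (s := s) (c := K - 1 / 2 * L) (ρ := 2 * δ) (by linarith)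
      (fun r hr => by linarith [(hLam r hr).1])
    have hEX := hRb δ s hδ hδ' hsre.ge (by linarith)
    have hdE : ∀ r ∈ Icc (0:ℝ) (2 * δ), HasDerivAt (fun r : ℝ => (E s r).re)
        (-(Lam (s - r)) * E s r).re r := by
      intro r hr
      have hp : 0 < (s - r).re := by rw [sub_re, ofReal_re]; linarith [hr.2]
      have h1 := E_hd hp
      exact (reCLM.hasFDerivAt.comp_hasDerivAt r h1)
    -- the lower bound of the derivative
    have hder : ∀ r ∈ Icc (0:ℝ) (2 * δ), -(1 / 2 * L + 5 * K * X) ≤ (-(Lam (s - r)) * E s r).re := by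
      intro r hr
      obtain ⟨h1, h2, h3⟩ := hLam r hr
      have hE1 := hEX r hr
      have hE2 := hEn r hr
      have e : (-(Lam (s - r)) * E s r).re = -((Lam (s - r)).re * (E s r).re) +
          (Lam (s - r)).im * (E s r).im := by
        rw [mul_re, neg_re, neg_im]; ring
      rw [e]
      have him : |(Lam (s - r)).im * (E s r).im| ≤ K * X := by
        rw [abs_mul]
        exact mul_le_mul h3 ((abs_im_le_norm _).trans hE1) (abs_nonneg _) (by linarith)
      have him' := (abs_le.1 him).1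
      have hKX : K ≤ K * X := by nlinarith
      rcases le_or_gt K (1 / 2 * L) with hbig | hsmall
      · have hE3 : ‖E s r‖ ≤ 1 := by
          refine hE2.trans ?_
          rw [Real.exp_le_one_iff]
          exact mul_nonpos_of_nonpos_of_nonneg (by linarith) hr.1
        have h4 : (Lam (s - r)).re * (E s r).re ≤ 1 / 2 * L + K := by
          have h5 : (E s r).re ≤ 1 := (re_le_norm _).trans hE3
          have h6 : 0 ≤ (Lam (s - r)).re := by linarith
          have := mul_le_mul_of_nonneg_left h5 h6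
          linarith
        linarith
      · have h4 : |(Lam (s - r)).re * (E s r).re| ≤ (2 * K) * X := by
          rw [abs_mul]
          refine mul_le_mul ?_ ((abs_re_le_norm _).trans hE1) (abs_nonneg _) (by linarith)
          rw [abs_le]; constructor <;> linarith
        have h5 := (abs_le.1 h4).2
        nlinarith
    have hmono : MonotoneOn (fun r : ℝ => (E s r).re + (1 / 2 * L + 5 * K * X) * r) (Icc 0 (2 * δ)) := by
      have hd : ∀ x ∈ Icc (0:ℝ) (2 * δ), HasDerivAt (fun r : ℝ => (E s r).re + (1 / 2 * L + 5 * K * X) * r)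
          ((-(Lam (s - x)) * E s x).re + (1 / 2 * L + 5 * K * X)) x := by
        intro x hx
        have h2 : HasDerivAt (fun r : ℝ => (1 / 2 * L + 5 * K * X) * r) (1 / 2 * L + 5 * K * X) x := by
          simpa using (hasDerivAt_id x).const_mul (1 / 2 * L + 5 * K * X)
        exact (hdE x hx).add h2
      refine monotoneOn_of_deriv_nonneg (convex_Icc _ _) (fun x hx => (hd x hx).continuousAt.continuousWithinAt)
        (fun x hx => ?_) (fun x hx => ?_)
      · rw [interior_Icc] at hx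
        exact (hd x ⟨hx.1.le, hx.2.le⟩).differentiableAt.differentiableWithinAt
      · rw [interior_Icc] at hx
        rw [(hd x ⟨hx.1.le, hx.2.le⟩).deriv]
        have := hder x ⟨hx.1.le, hx.2.le⟩
        linarith
    have hfin := hmono (left_mem_Icc.2 (by linarith : (0:ℝ) ≤ 2 * δ)) (right_mem_Icc.2 (by linarith))
      (by linarith : (0:ℝ) ≤ 2 * δ)
    simp only [mul_zero, add_zero] at hfin
    rw [E_zero (by linarith), one_re] at hfin
    rw [R_eq]
    have hKX0 : 0 ≤ K * X := by positivity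
    constructor
    · nlinarith
    · have h1 := hEn (2 * δ) ⟨by linarith, le_rfl⟩
      have h2 : Real.exp ((K - 1 / 2 * L) * (2 * δ)) ≤ 1 + 20 * K * X * δ := by
        have h3 : (K - 1 / 2 * L) * (2 * δ) ≤ 2 * K * δ := by nlinarith
        have h4 : 2 * K * δ ≤ K / 4 := by nlinarith
        have h5 : Real.exp (2 * K * δ) ≤ 1 + 2 * K * δ * Real.exp (2 * K * δ) := by
          have := Real.add_one_le_exp (-(2 * K * δ))
          have h6 := Real.exp_pos (2 * K * δ)
          have h7 : Real.exp (-(2 * K * δ)) * Real.exp (2 * K * δ) = 1 := by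
            rw [← Real.exp_add, neg_add_cancel, Real.exp_zero]
          nlinarith
        have h6 : Real.exp (2 * K * δ) ≤ X := by rw [hX]; exact Real.exp_le_exp.2 h4
        have h7 : 2 * K * δ * Real.exp (2 * K * δ) ≤ 2 * K * δ * X :=
          mul_le_mul_of_nonneg_left h6 (by positivity)
        have h8 := Real.exp_le_exp.2 h3
        have h9 : 0 ≤ K * X * δ := by positivity
        nlinarith
      exact (re_le_norm _).trans (h1.trans h2)

end Pool.Agent.H388.HB
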